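import Pool.Agent.K4H63.PI.Cases

/-!
# Two ends, spherically symmetric metric and mean curvature, arbitrary trace-free part of `h`

Initial data `(g, h)` on `ℝ³ ∖ {0}`, where `g = φ(|x|)⁴ δ` is any spherically symmetric metric with
two ends, and `h` is a symmetric tensor field, without any symmetry, satisfying the dominant energy
condition `μ ≥ |J|`.

The Penrose inequality `m ≥ √(A / 16π)` is proved if on each centred sphere

* `tr_g h` is constant (for instance: `tr_g h` is any spherically symmetric function, and the
  trace-free part of `h` is arbitrary), or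
* the trace `tr_S h` over the tangent planes of the sphere is constant, or, more generally,
* the average of `(tr_g h)² - |h|²` is at most the value of this quadratic expression at the
  rotational average of `h`.

The condition is only needed for the spheres with `|average of tr_S h| ≤ H`.

The proof averages the dominant energy condition over the centred spheres; the divergence of the
mixed part of `h` has average zero (the divergence theorem on spheres is proved in
`Pool.Agent.K4H63.PI.Div`), and the Hawking mass formed with the average of `tr_S h` is monotone.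
-/

set_option autoImplicit false

namespace Pool.Agent.Results.MP_ede089_mp.AveragedMomentum

open Pool.Agent.K4H63.PI Filter Topology

/-- The least area of the centred spheres (these are among the surfaces separating the two
ends). -/
noncomputable def leastArea (φ : ℝ → ℝ) : ℝ := sInf (sphereArea φ '' Set.Ioi 0)

/-- `F` is constant on the centred sphere of radius `r`. -/
def ConstOn (F : E → ℝ) (r : ℝ) : Prop := ∃ c, ∀ w : E, ‖w‖ = 1 → F (r • w) = c

theorem result (φ : ℝ → ℝ) (h : E → Matrix (Fin 3) (Fin 3) ℝ) (m : ℝ)
    -- `φ` is positive and `C²` on `(0, ∞)`; `h` is symmetric and `C¹` on `ℝ³ ∖ {0}`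
    (hφ : Good φ) (hh : Tensor h)
    -- the end at infinity is asymptotically flat with total mass `m`
    (flat : FlatEnd φ m) (decay : Decay h)
    -- the area radius tends to infinity in the second end `x → 0`
    (second : Tendsto (fun r => (φ r) ^ 2 * r) (𝓝[>] 0) atTop)
    -- the dominant energy condition
    (dec : ∀ x : E, x ≠ 0 → momentumNorm (metric φ) h x ≤ energy (metric φ) h x)
    -- the condition on the spheres
    (cond : ∀ r : ℝ, 0 < r → |sphAvg (trS φ h) r| ≤ sphereH φ r →
      ConstOn (trg (metric φ) h) r ∨ ConstOn (trS φ h) r ∨ AvgCond φ h r) :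
    Real.sqrt (leastArea φ / (16 * Real.pi)) ≤ m := by
  obtain ⟨r₁, hr₁, hneg⟩ := exists_neg hφ second
  obtain ⟨r₀, h1, h2⟩ := avg_theorem hφ hh flat decay hr₁
    (fun x hx => dec x (norm_pos_iff.1 (hr₁.trans_le hx)))
    (fun r hr hu => by
      have h0 := hr₁.trans_le hr
      rcases cond r h0 hu with h3 | h3 | h3
      · exact avgCond_of_trg hφ hh h0 h3
      · exact avgCond_of_trS hφ hh h0 h3
      · exact h3)
    (by
      refine le_trans ?_ (abs_nonneg _)
      rw [sphereH_eq hφ hr₁]
      have := hφ.pos r₁ hr₁
      exact div_nonpos_of_nonpos_of_nonneg (by linarith) (by positivity))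
  refine le_trans (Real.sqrt_le_sqrt ?_) h2
  have h3 : leastArea φ ≤ sphereArea φ r₀ := by
    refine csInf_le ⟨0, ?_⟩ ⟨r₀, hr₁.trans_le h1, rfl⟩
    rintro _ ⟨r, _, rfl⟩
    unfold sphereArea
    positivity
  have := Real.pi_pos
  exact div_le_div_of_nonneg_right h3 (by positivity)

end Pool.Agent.Results.MP_ede089_mp.AveragedMomentum
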